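import Pool.Agent.Lib.MP_05df08_co.Base

set_option autoImplicit false

open scoped ComplexConjugate
open Complex

namespace Pool.Agent.UD

noncomputable section

variable {J Hc : Type*} [DecidableEq J] [DecidableEq Hc]

/-- integer indicator vector -/
def iz (A : Finset Hc) : Hc → ℤ := fun i => if i ∈ A then 1 else 0

open Classical in
/-- the moves inside `P` -/
def mv {l : ℕ} (δ : J → Finset Hc) (P : Finset (Cfg J Hc l)) :
    Finset (Cfg J Hc l × Cfg J Hc l) :=
  (P ×ˢ P).filter (fun q => Move δ q.1 q.2)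

theorem mem_mv {l : ℕ} (δ : J → Finset Hc) (P : Finset (Cfg J Hc l))
    (q : Cfg J Hc l × Cfg J Hc l) :
    q ∈ mv δ P ↔ q.1 ∈ P ∧ q.2 ∈ P ∧ Move δ q.1 q.2 := by
  unfold mv
  simp [Finset.mem_filter, Finset.mem_product, and_assoc]

/-- extension by zero -/
def ext {l : ℕ} (σ : Vx J l → ℤ) (S : Finset J) : ℤ :=
  if h : S.card = l ∨ S.card = l + 1 then σ ⟨S, h⟩ else 0

/-- coordinates of the product code -/
abbrev HC (r b : ℕ) := {p : Fin r × (Fin r → Fin b) // (p.2 p.1 : ℕ) = 0}

/-- vectors of the product code: `(i, j without the i-th letter)` for all `i` -/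
def dl (r b : ℕ) (j : Fin r → Fin b) : Finset (HC r b) :=
  Finset.univ.filter (fun p => ∀ k, k ≠ p.1.1 → p.1.2 k = j k)

end

end Pool.Agent.UD
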