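import Mathlib

set_option autoImplicit false

open scoped ComplexConjugate
open Complex

namespace Pool.Agent.UD

noncomputable section

/-! ### Part A: the recutting configuration -/

/-- State of the recursion: the point `x` and three functions of the spectral parameter `u`. -/
@[ext] structure St where
  x : ℂ
  a : ℝ → ℂ
  c : ℝ → ℂ
  e : ℝ → ℂ

def St.init : St := ⟨0, fun _ => 1, fun _ => 0, fun _ => 0⟩

def St.tau (p : St) (r : ℝ) (w : ℂ) : ℂ :=
  (r : ℂ) * p.a (1 / r ^ 2) - conj w * p.c (1 / r ^ 2)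

/-- the increment of `x` when a direction of length `r` and unit vector `w` is added -/
def St.inc (p : St) (r : ℝ) (w : ℂ) : ℂ :=
  (r : ℂ) * w * (p.tau r w / conj (p.tau r w))

def St.step (p : St) (r : ℝ) (w : ℂ) : St where
  x := p.x + p.inc r w
  a := fun u => p.a u + p.inc r w * (u : ℂ) * conj (p.c u)
  c := fun u => p.c u + p.inc r w * conj (p.a u)
  e := fun u => p.e u + (p.x + p.inc r w) * conj (p.inc r w) * p.c u

/-- the norm form -/
def St.N (p : St) (u : ℝ) : ℝ := normSq (p.a u) - u * normSq (p.c u)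

variable {ι : Type*}

/-- the state after adding the directions of a list (the head is added last) -/
def stL (p0 : St) (α : ι → ℝ) (w : ι → ℂ) : List ι → St
  | [] => p0
  | j :: l => (stL p0 α w l).step (α j) (w j)

/-- the state after adding the directions of a finite set -/
def stF (p0 : St) (α : ι → ℝ) (w : ι → ℂ) (D : Finset ι) : St := stL p0 α w D.toList

/-- lengths positive and distinct -/
def Len (α : ι → ℝ) : Prop := (∀ j, 0 < α j) ∧ Function.Injective α

/-- unit vectors -/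
def Uni (w : ι → ℂ) : Prop := ∀ j, ‖w j‖ = 1

/-- nondegenerate initial state -/
def St.Good (p : St) (α : ι → ℝ) : Prop := ∀ j, p.N (1 / α j ^ 2) ≠ 0

/-- the point of the configuration -/
def xw (α : ι → ℝ) (w : ι → ℂ) (D : Finset ι) : ℂ := (stF St.init α w D).x

/-- the second order term -/
def yw (α : ι → ℝ) (w : ι → ℂ) (D : Finset ι) : ℂ := (stF St.init α w D).e 0

/-- configurations of the cube -/
structure IsConf [DecidableEq ι] (α : ι → ℝ) (X : Finset ι → ℂ) : Prop where
  c1 : ∀ S j, j ∉ S → ‖X (insert j S) - X S‖ = α j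
  c2 : ∀ S i j, i ∉ S → j ∉ S → i ≠ j →
    (X (insert i (insert j S)) - X S) * conj (X (insert i S) - X (insert j S)) =
      ((α i ^ 2 - α j ^ 2 : ℝ) : ℂ)

/-- vertices of two adjacent levels -/
abbrev Vx (J : Type*) (l : ℕ) := {S : Finset J // S.card = l ∨ S.card = l + 1}

/-- real parallelism of the two combinations of the configuration given by real weights -/
def Cr [Fintype ι] (l : ℕ) (X : Finset ι → ℂ) (θ η : Vx ι l → ℝ) : ℝ :=
  ((∑ S : Vx ι l, (θ S : ℂ) * X S.1) * conj (∑ S : Vx ι l, (η S : ℂ) * X S.1)).im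

/-! ### Part B: the cell -/

/-- configurations -/
abbrev Cfg (J Hc : Type*) (l : ℕ) := Vx J l → Finset Hc

variable {J Hc : Type*} [DecidableEq J] [DecidableEq Hc]

/-- unit moves: `δ j` is moved from `S` to `T = S ∪ {j}` -/
def Move {l : ℕ} (δ : J → Finset Hc) (x x' : Cfg J Hc l) : Prop :=
  ∃ (S T : Vx J l) (j : J), j ∉ S.1 ∧ T.1 = insert j S.1 ∧ δ j ⊆ x S ∧ Disjoint (δ j) (x T) ∧
    x' = Function.update (Function.update x S (x S \ δ j)) T (x T ∪ δ j)

/-- indicator vector -/
def ivec (A : Finset Hc) : Hc → ℚ := fun i => if i ∈ A then 1 else 0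

/-- the invariants of `x` and `y` agree -/
def Inv {l : ℕ} [Fintype J] (δ : J → Finset Hc) (t : ℕ) (x y : Cfg J Hc l) : Prop :=
  ∀ A : Finset J, A.card ≤ t →
    (∑ S : Vx J l, if A ⊆ S.1 then (ivec (y S) - ivec (x S)) else 0) ∈
      Submodule.span ℚ ((fun j => ivec (δ j)) '' (A : Set J))

/-- number of vertices at which both coordinates are present -/
def Psi {l : ℕ} [Fintype J] (i i' : Hc) (x : Cfg J Hc l) : ℤ :=
  ((Finset.univ.filter (fun S : Vx J l => i ∈ x S ∧ i' ∈ x S)).card : ℤ)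

/-- an integer vector with entries in {-1,0,1} -/
def Sm (a : Hc → ℤ) : Prop := ∀ i, a i = -1 ∨ a i = 0 ∨ a i = 1

/-- genericity of the weights -/
structure Gen [Fintype Hc] (g : Hc → ℝ) : Prop where
  pos : ∀ i, 0 < g i
  g1 : ∀ a : Hc → ℤ, Sm a → a ≠ 0 → ∑ i, (a i : ℝ) * g i ≠ 0
  g2 : ∀ a b a' b' : Hc → ℤ, Sm a → Sm b → Sm a' → Sm b' →
    (∑ i, (a i : ℝ) * g i) * (∑ i, (b' i : ℝ) * g i) =
      (∑ i, (b i : ℝ) * g i) * (∑ i, (a' i : ℝ) * g i) →
    ∀ X : Hc → ℝ, (∑ i, (a i : ℝ) * X i) * (∑ i, (b' i : ℝ) * X i) =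
      (∑ i, (b i : ℝ) * X i) * (∑ i, (a' i : ℝ) * X i)

/-- weight of a set of coordinates -/
def gs [Fintype Hc] (g : Hc → ℝ) (A : Finset Hc) : ℝ := ∑ i ∈ A, g i

end

end Pool.Agent.UD
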