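import Pool.Agent.Lib.MP_05df08_co.Mg.G002

set_option autoImplicit false

open scoped ComplexConjugate
open Complex

namespace Pool.Agent.UD

/-- Transfer to the Euclidean plane with `Complex.orthonormalBasisOneI.repr` (a linear isometry);
collinearity of three points `L p, L q, L r` gives real multiples of one vector, so
`((q - p) * conj (r - p)).im = 0`. -/
theorem main_plane (C : ℝ) (N : ℕ) : ∃ S : Finset (EuclideanSpace ℝ (Fin 2)),
      N ≤ S.card ∧
      (∀ x ∈ S, ∀ y ∈ S, ∀ z ∈ S, x ≠ y → y ≠ z → x ≠ z →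
        ¬ Collinear ℝ ({x, y, z} : Set (EuclideanSpace ℝ (Fin 2)))) ∧
      C * (S.card : ℝ) * Real.log (S.card : ℝ) <
        (((S ×ˢ S).filter (fun p => dist p.1 p.2 = 1)).card : ℝ) := by
  classical
  obtain ⟨S, hS1, hS2, hS3⟩ := main_complex C N
  let L : ℂ ≃ₗᵢ[ℝ] EuclideanSpace ℝ (Fin 2) := Complex.orthonormalBasisOneI.repr
  have hcard : (S.map L.toEquiv.toEmbedding).card = S.card := Finset.card_map _
  refine ⟨S.map L.toEquiv.toEmbedding, ?_, ?_, ?_⟩
  · rw [hcard]
    exact hS1
  · intro x hx y hy z hz hxy hyz hxz hcol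
    obtain ⟨p, hp, rfl⟩ := Finset.mem_map.1 hx
    obtain ⟨q, hq, rfl⟩ := Finset.mem_map.1 hy
    obtain ⟨t, ht, rfl⟩ := Finset.mem_map.1 hz
    have e1 : p ≠ q := fun h => hxy (by rw [h])
    have e2 : q ≠ t := fun h => hyz (by rw [h])
    have e3 : p ≠ t := fun h => hxz (by rw [h])
    refine hS2 p hp q hq t ht e1 e2 e3 ?_
    change Collinear ℝ ({L p, L q, L t} : Set (EuclideanSpace ℝ (Fin 2))) at hcol
    rw [collinear_iff_of_mem (p₀ := L p) (by simp)] at hcol
    obtain ⟨v, hv⟩ := hcol
    obtain ⟨a, ha⟩ := hv (L q) (by simp)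
    obtain ⟨b, hb⟩ := hv (L t) (by simp)
    have hq' : q - p = (a : ℂ) * L.symm v := by
      have h1 : L q - L p = a • v := by
        rw [ha, vadd_eq_add, add_sub_cancel_right]
      have h2 : L.symm (L q - L p) = L.symm (a • v) := by rw [h1]
      rw [map_sub, map_smul, LinearIsometryEquiv.symm_apply_apply,
        LinearIsometryEquiv.symm_apply_apply, Complex.real_smul] at h2
      exact h2
    have ht' : t - p = (b : ℂ) * L.symm v := by
      have h1 : L t - L p = b • v := by
        rw [hb, vadd_eq_add, add_sub_cancel_right]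
      have h2 : L.symm (L t - L p) = L.symm (b • v) := by rw [h1]
      rw [map_sub, map_smul, LinearIsometryEquiv.symm_apply_apply,
        LinearIsometryEquiv.symm_apply_apply, Complex.real_smul] at h2
      exact h2
    rw [hq', ht', map_mul, Complex.conj_ofReal]
    have h3 : (a : ℂ) * L.symm v * ((b : ℂ) * conj (L.symm v)) =
        ((a * b * Complex.normSq (L.symm v) : ℝ) : ℂ) := by
      push_cast
      rw [Complex.normSq_eq_conj_mul_self]
      ring
    rw [h3, Complex.ofReal_im]
  · rw [hcard]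
    refine lt_of_lt_of_le hS3 ?_
    have h1 : ((S ×ˢ S).filter (fun p => ‖p.1 - p.2‖ = 1)).card ≤
        (((S.map L.toEquiv.toEmbedding) ×ˢ (S.map L.toEquiv.toEmbedding)).filter
          (fun p => dist p.1 p.2 = 1)).card := by
      apply Finset.card_le_card_of_injOn (fun p => (L p.1, L p.2))
      · intro p hp
        have hp' := Finset.mem_coe.1 hp
        rw [Finset.mem_filter, Finset.mem_product] at hp'
        apply Finset.mem_coe.2
        rw [Finset.mem_filter, Finset.mem_product]
        refine ⟨⟨Finset.mem_map.2 ⟨p.1, hp'.1.1, rfl⟩, Finset.mem_map.2 ⟨p.2, hp'.1.2, rfl⟩⟩, ?_⟩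
        change dist (L p.1) (L p.2) = 1
        rw [L.dist_map, dist_eq_norm]
        exact hp'.2
      · intro p _ q _ h
        have h2 := Prod.mk.inj h
        exact Prod.ext (L.injective h2.1) (L.injective h2.2)
    exact_mod_cast h1

end Pool.Agent.UD
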